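import Pool.Agent.PFC.StmtsB7
import Pool.Agent.AT8.Stmts4
import Pool.Agent.Helper50_PP.Ffa
import Pool.Agent.Helper96_PP.Trn
import Pool.Agent.Helper79_WRA.Tower

/-!
# Squad PFC, row GEC: the recursion for a class of blocks closed under quotients, if the numbers of
modular characters of the block and of its local block are equal (copy of `Helper17_WAX/GEN.lean`)
-/

open scoped BigOperators

noncomputable section

namespace Pool.Agent.PFC.H3

open Pool.Agent.Helper51_AWC Pool.Agent.Helper79_WRA Pool.Agent.PP Pool.Agent.PP.KF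
open Pool.Agent.PP.K9 Pool.Agent.PP.K9.H97 Pool.Agent.PP.H75 Pool.Agent.PP.T3 Pool.Agent.PP.T2
open Pool.Agent.PP.T8 (Fq Ts8Stmt Iq)

attribute [local instance] Ideal.Quotient.field

theorem gec (hFST : T2.FstStmt) (hTS : Ts8Stmt) : GecStmt := by
  intro ℓ hℓ M _ hM a ha P hcl hbd
  have hF : GoodF ℓ (FF M) := H50.fld ℓ Fact.out M hM
  suffices hmain : ∀ n : ℕ, ∀ (G : Type) [Group G] [Finite G], Nat.card G = n →
      ∀ (e : G → FF M) (V : Subgroup G) (γ : G → FF M), Ld ℓ e V γ →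
      Monoid.exponent V = ℓ ^ a → P G e V γ → YY ℓ ⊤ e = 0 by
    intro G _ _ e V γ h1 h2 h3
    exact hmain _ G rfl e V γ h1 h2 h3
  intro n
  induction n using Nat.strong_induction_on with
  | _ n ih =>
  intro G _ _ hn e V γ hL hexp hT
  by_cases hO : opCore ℓ G = ⊥
  swap
  · exact H96.yzr ℓ (FF M) hℓ.out G ⊤ inferInstance (opCore_top_ne rfl hO) e
  have hIq : Iq M ℓ a (Nat.card G) V γ := by
    intro A _ _ hA f V' γ' hL' he hπ
    exact ih (Nat.card A) (hn ▸ hA) A rfl f V' γ' hL' he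
      (hcl G A e V γ f V' γ' hL hL' hπ hexp he hT)
  obtain ⟨f, hf⟩ := hFST ℓ M hM G e V γ hL (ℓ ^ (a - 1))
  have h1 := hTS ℓ M hM G e V γ hL a ha hexp _ rfl f hf hIq
  have h2 : ln e = ln (fun t : Subgroup.normalizer ((Uw (ℓ ^ (a - 1)) V : Subgroup G) : Set G) =>
      f t) := hbd G e V γ hO hL hexp hT hIq f hf
  rw [h1, h2, sub_self, mul_zero]

end Pool.Agent.PFC.H3
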