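import Pool.Agent.PFC.StmtsB4b

/-!
# Squad PFC, row QLR: a balanced product has the trivial summand
-/

open scoped BigOperators TensorProduct

noncomputable section

namespace Pool.Agent.PFC.H3

theorem qlr (hP : QlpStmt) (hI : QisStmt) (hE : QreStmt) (hT : QrtStmt) : QlrStmt := by
  intro F V ι _ _ _ _ S L
  obtain ⟨-, isym, itr, -, -, -, iret, -, -, -, iassoc, -⟩ := hI F V
  generalize hn : L.length = n
  induction n using Nat.strong_induction_on generalizing L with
  | _ n ih =>
  intro hL hb
  match L, hn with
  | [], _ => exact (hT F V).2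
  | (Q, ε) :: L₁, hn =>
    have hne : (Q, !ε) ≠ (Q, ε) := by
      intro h
      have h1 := congrArg Prod.snd h
      cases ε <;> simp at h1
    have hcount : ∀ (L' : List (ι × Bool)), (∀ Q, L'.count (Q, true) = L'.count (Q, false)) →
        ∀ Q b, L'.count (Q, !b) = L'.count (Q, b) := by
      intro L' h Q b
      cases b
      · exact h Q
      · exact (h Q).symm
    have hmem : (Q, !ε) ∈ L₁ := by
      have h1 : 0 < ((Q, ε) :: L₁).count (Q, !ε) := by
        rw [hcount _ hb Q ε]
        simp
      rcases List.mem_cons.1 (List.count_pos_iff.1 h1) with h2 | h2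
      · exact absurd h2 hne
      · exact h2
    have hp : ((Q, ε) :: L₁).Perm ((Q, true) :: (Q, false) :: L₁.erase (Q, !ε)) := by
      have h1 : L₁.Perm ((Q, !ε) :: L₁.erase (Q, !ε)) := List.perm_cons_erase hmem
      cases ε
      · exact (List.Perm.cons _ h1).trans (List.Perm.swap _ _ _)
      · exact List.Perm.cons _ h1
    have hb2 : ∀ Q', (L₁.erase (Q, !ε)).count (Q', true) = (L₁.erase (Q, !ε)).count (Q', false) := by
      intro Q'
      have h1 := hb Q'
      rw [hp.count_eq, hp.count_eq] at h1
      by_cases hq : Q' = Q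
      · subst hq
        simp [List.count_cons] at h1
        exact h1
      · have h2 : Q ≠ Q' := fun h => hq h.symm
        simp [List.count_cons, h2] at h1
        exact h1
    have hlen : (L₁.erase (Q, !ε)).length < n := by
      have h1 := hp.length_eq
      simp only [List.length_cons] at h1
      simp only [List.length_cons] at hn
      omega
    have hsub : ∀ p ∈ L₁.erase (Q, !ε), Mx (S p.1) ∧ (Module.finrank F (S p.1).A : F) ≠ 0 := by
      intro p hp'
      exact hL p (List.mem_cons_of_mem _ (List.mem_of_mem_erase hp'))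
    have r1 := ih _ hlen (L₁.erase (Q, !ε)) rfl hsub hb2
    have r2 := hL (Q, ε) (List.mem_cons_self ..)
    have r3 := (hT F V).1 _ _ (hE F V (S Q) r2.1 r2.2) r1
    have r4 := hP F V ι S _ _ hp
    refine iret _ _ (isym _ _ r4) ?_
    exact iret _ _ (iassoc (S Q) (S Q).op (prd S (L₁.erase (Q, !ε)))) r3

end Pool.Agent.PFC.H3
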